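import Pool.Agent.V11231.SPX.Gap

/-!
# Implementations of the simplex method with unreliable negations

The linear programs considered here are `max z y`, `y ≥ 0`, `G y ≤ 1` for a fixed matrix `G` with
entries `0` and `1`, with `2 n` rows and `n ^ 2 K` columns; the coefficients `z` of the objective
function are bits, which are the input. The polytope is fixed and the start vertex may be the
nondegenerate vertex `0`.

The model (`LiteralCircuit`, `Pool/Agent/V11231/FLT/Slot.lean`): randomised circuits whose inputs are
the bits `z` and their negations, with gates that compute arbitrary nondecreasing real functions of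
two arguments (sum, minimum, maximum, product of nonnegative numbers, rounding, comparison with a
threshold, ...). All circuits with AND, OR and NOT gates can be brought into this form by doubling
their size; so all algorithms can be written in this way, and in particular circuits of this kind of
polynomial size compute, without faults, whether the last vertex of the run of a polynomial-time
version of the simplex method has the objective value `n`. No bound on the depth is assumed. A
randomised circuit is a finite nonempty family of circuits from which one is chosen uniformly at
random.

Faults: each negated input is stuck at `0`, independently with probability `1 / D`. The other inputs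
are reliable. A fault can never make the circuit accept.

Result: let `c ≥ 0`, `ν > 0` and `3 c + 6 ν < 1`. For all large `n` and all `K` there is such a matrix `G`
that, for every version of the simplex method and all `D` with `D (2 log n + 4) ≤ K`, randomised
circuits need `(2 ^ (n ^ ν) - 2) / 3` gates if they accept with probability at least `4 / 5`, even
under faults, the objective functions for which the run ends with the value at least `n`, and accept
with probability at most `1 / 4`, without faults, those for which it ends with a value less than
`n ^ (1 - c)`.

So the simplex method needs almost completely reliable negative information on the objective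
function: for `K = n ^ k` only about `2 n ^ 2 log n` of the `n ^ (k + 2)` negated inputs are faulty on
the average, and already an approximation within the factor `n ^ c` needs exponential size. For
`D = 1` all negated inputs are faulty: this is the case of monotone circuits.

The proof: the edges of a bipartite graph get random ones of `K` parallel columns of `G`. The places
of the other columns are as good as random faulty inputs. So all negated inputs that depend on the
graph can be replaced by `0`, and this gives a monotone randomised circuit for matchings (the
transfer is that of `Pool/Agent/Y630/TF/Transfer.lean`, and the linear program is that of my hand-in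
`FaultyNegations` on linear feasibility), in contradiction to the starting theorem
`H630VC.asymp_matching`, `Pool/Agent/H630VC/PM1.lean`.
-/

set_option autoImplicit false

namespace Pool.Agent.Results.MP_4d246d_lc.FaultyNegations

open Pool.Agent.V11231.FLT Pool.Agent.V11231.SPX

/-- Let `c ≥ 0`, `ν > 0` and `3 c + 6 ν < 1`. There is `n₀` such that for all `n ≥ n₀` and `K ≥ 1`
there is a matrix `G` with `2 n` rows, `n ^ 2 K` columns and entries `0` and `1` with the following
property. Let `v z 0, …, v z (N z)` be the run of any version of the simplex method from the vertex
`v₀` of the polytope `y ≥ 0`, `G y ≤ 1` for the objective function with the bits `z` as coefficients,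
and let `D ≥ 1` with `D (2 log n + 4) ≤ K`. If a finite nonempty family of circuits on literals with
nondecreasing real gates of fan-in at most two and with at most `S` gates accepts every `z` for which
the last vertex has at least the value `n` with probability at least `4 / 5`, even if each negated
input is stuck at `0` independently with probability `1 / D`, and every `z` for which the last vertex
has a value less than `n ^ (1 - c)` with probability at most `1 / 4` (without faults), then
`2 ^ (n ^ ν) ≤ 3 S + 2`. -/
theorem result (c ν : ℝ) (hc : 0 ≤ c) (hν : 0 < ν) (h : 3 * c + 6 * ν < 1) :
    ∃ n₀ : ℕ, ∀ n : ℕ, n₀ ≤ n → ∀ K : ℕ, 1 ≤ K →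
    ∃ G : Matrix (Fin (2 * n)) (Fin (n ^ 2 * K)) ℝ, (∀ i j, G i j = 0 ∨ G i j = 1) ∧
      ∀ (v₀ : Fin (n ^ 2 * K) → ℝ) (N : (Fin (n ^ 2 * K) → Bool) → ℕ)
      (v : (Fin (n ^ 2 * K) → Bool) → ℕ → Fin (n ^ 2 * K) → ℝ),
      (∀ z, IsRun G (fun _ => 1) (ind z) v₀ (N z) (v z)) →
      ∀ D : ℕ, 1 ≤ D → D * (2 * Real.log n + 4) ≤ K →
      ∀ (R : Type) [Finite R] [Nonempty R] (C : R → LiteralCircuit (Fin (n ^ 2 * K))) (S : ℕ),
        (∀ ρ, (C ρ).s ≤ S) →
        (∀ z, (n : ℝ) ≤ value (ind z) (v z (N z)) → 4 / 5 ≤ faultyAcceptance C D z) →
        (∀ z, value (ind z) (v z (N z)) < (n : ℝ) ^ (1 - c) → acceptance C z ≤ 1 / 4) →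
        (2 : ℝ) ^ ((n : ℝ) ^ ν) ≤ 3 * S + 2 := by
  obtain ⟨n₀, H⟩ := lp_fault2 c ν hc hν h
  refine ⟨n₀, fun n hn K hK => ?_⟩
  obtain ⟨G, hG, hG1, H⟩ := H n hn K hK
  refine ⟨G, hG, fun v₀ N v hv D hD hDK R _ _ C S hS h1 h2 => ?_⟩
  let _ : Fintype R := Fintype.ofFinite R
  refine H D hD hDK R C S hS (fun z hz => ?_) (fun z hz => ?_)
  · exact h1 z ((final_pack hG hG1 (hv z) _).2 hz)
  · exact h2 z (not_le.1 fun h => hz ((final_pack hG hG1 (hv z) _).1 h))

end Pool.Agent.Results.MP_4d246d_lc.FaultyNegations
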