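import Pool.Agent.V11231.LPS.Degree
import Pool.Agent.V11231.SPX.Defs

/-!
# Implementations of the simplex method by circuits of small formal degree

The linear programs considered here are `max c y`, `y ≥ 0`, with all row sums and column sums of the
`n × n` matrix `y` at most one: the constraint matrix is fixed, with entries `0` and `1`, and it is
totally unimodular; the coefficients of the objective function are `n ^ 2` bits, which are the
input. All vertices have entries `0` and `1`, and the start vertex may be the nondegenerate
vertex `0`.

Let any version of the simplex method be given: any rule which produces, for every objective
function of this kind, a path of improving edges which ends in a vertex with maximal objective value.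
The theorem concerns the single bit which tells whether this last vertex has the objective value
`n`.

A Boolean circuit with AND gates of fan-in two, OR gates of any fan-in and negations at the inputs
accepts if and only if it has a proof tree all of whose leaves are true literals; the formal degree
in an input bit is the largest number of leaves with this bit. (Circuits of polynomial size and
polynomial total degree are non-uniform LOGCFL; the circuits of degree one in every bit are the
decomposable ones, DNNFs, and a nondeterministic syntactic read-`k` branching program is a circuit
of degree at most `k` in every bit.)

Let a finite family of circuits accept no objective function for which the run ends with a value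
less than `n`, and let it accept each of the others with probability at least
`2 ^ (- n / 2 ^ (60 (k + 3)))` (over a random circuit of the family). If the formal degrees of each
circuit in the `n ^ 2` bits sum up to at most `k n ^ 2` then some circuit of the family has size at
least `2 ^ (n / 2 ^ (60 (k + 3)) - 1)`. So polynomial size needs formal degree `Ω (log n)` for an
average coefficient of the objective function, for all versions of the simplex method, although
these circuits may guess (they have any number of OR gates).

Proof. The value `n` is reached if and only if the bits contain a permutation matrix; the lower bound
for families of graphs (`Pool.Agent.W896.FD.final_graph`) is a starting result, and the graphs are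
those of my hand-in `FormalDegree` on linear feasibility (`Pool/Agent/V11231/LPS/Degree.lean`).
-/

set_option autoImplicit false

namespace Pool.Agent.Results.MP_4d246d_lc.FormalDegree

open Pool.Agent.W896.RK Pool.Agent.V11231.SPX

/-- Let `v x 0, …, v x (N x)` be the run of any version of the simplex method from the vertex `v₀` of
the assignment polytope for the objective function with the bits `x` as coefficients. Let `U r` be a
finite nonempty family of circuits with the bits `x i j`, `i, j < n`, as inputs such that no circuit
of the family accepts bits for which the last vertex has an objective value less than `n`, and such
that all other bits are accepted by at least a `2 ^ (- ⌊n / 2 ^ (60 (k + 3))⌋)` fraction of the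
circuits. If in every circuit of the family the sum of the formal degrees in all bits is at most
`k n ^ 2` then, for some circuit of the family, `n ≤ 2 ^ (60 (k + 3)) (⌊log₂ s⌋ + 1)`, where `s` is its
number of gates. -/
theorem result (k n : ℕ) (v₀ : Fin n × Fin n → ℝ)
    (N : (Fin n × Fin n → Bool) → ℕ) (v : (Fin n × Fin n → Bool) → ℕ → Fin n × Fin n → ℝ)
    (hv : ∀ x, IsRun (assign n) (fun _ => 1) (ind x) v₀ (N x) (v x))
    (R : Type) [Fintype R] [Nonempty R] (U : R → Circ (Fin n × Fin n))
    (hU : ∀ r x, (U r).Val x (U r).out → (n : ℝ) ≤ value (ind x) (v x (N x)))
    (hc : ∀ x, (n : ℝ) ≤ value (ind x) (v x (N x)) →
      Nat.card R ≤ 2 ^ (n / 2 ^ (60 * (k + 3))) * Nat.card {r // (U r).Val x (U r).out})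
    (hd : ∀ r, ∃ d : (U r).G → Fin n × Fin n → ℕ, IsDeg (U r) id d ∧
      ∑ e, d (U r).out e ≤ k * n ^ 2) :
    ∃ r, n ≤ 2 ^ (60 * (k + 3)) * (Nat.log 2 (Fintype.card (U r).G) + 1) := by
  refine Pool.Agent.V11231.LPS.lp_degree k n R U (fun r x hx => ?_) (fun x hx => ?_) hd
  · exact (final_iff (hv x)).1 (hU r x hx)
  · exact hc x ((final_iff (hv x)).2 hx)

end Pool.Agent.Results.MP_4d246d_lc.FormalDegree
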