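import Pool.Agent.V11231.SPX.Gap

/-!
# The simplex method cannot be implemented, even approximately, by monotone real gates

The linear programs considered here are `max c y`, `y ≥ 0`, with all row sums and column sums of the
`n × n` matrix `y` at most one: the constraint matrix is fixed, with entries `0` and `1`, and it is
totally unimodular; the coefficients of the objective function are `n ^ 2` bits, which are the
input. All vertices have entries `0` and `1`, and the start vertex may be the nondegenerate
vertex `0`. The optimal value is a nondecreasing function of `c`, so one may ask whether the simplex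
method can be implemented by monotone operations on the coefficients, with few other operations.

The circuit model `FProg` is defined in `Pool/Agent/H630VC/FreeModel.lean`: arbitrary nondecreasing
real functions of two arguments as gates (sum, maximum, minimum, product of nonnegative numbers,
rounding, comparison with a threshold, ...), and further gates which are arbitrary functions of the
bits that tell whether values computed before are at least certain constants (comparisons with
arbitrary outcomes); `wires q` is the number of the bits that enter further gates, `combos q` is the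
product, over the further gates, of one plus the number of these bits (so it is `2 ^ t` if there are `t`
NOT gates).

Result: let `2 α + 3 c + 6 ν < 1`. For all large `n` and every version of the simplex method,
randomised circuits with `combos ≤ n ^ α` which distinguish, with error probability at most `1 / 4`,
the runs whose last vertex has the objective value `n` from those whose last vertex has an objective
value less than `n ^ (1 - c)`, have size at least `2 ^ (n ^ ν)`.

Proof. The objective value at the end is the size of a maximum matching in the bipartite graph given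
by the bits; the lower bound is the starting result `H630VC.asymp_matching`
(`Pool/Agent/H630VC/PM1.lean`), which I used for linear feasibility before (`GapFeasibility`).
-/

set_option autoImplicit false

open Finset H630VC Filter

namespace Pool.Agent.Results.MP_4d246d_lc.GapValue

open Pool.Agent.V11231.SPX

/-- The inputs of the circuits: the coefficients (bits) of the objective function, and all real
constants. -/
def bitInputs (n : ℕ) : Set ((Fin n × Fin n → Bool) → ℝ) :=
  {f | (∃ e, f = fun x => if x e = true then 1 else 0) ∨ ∃ s : ℝ, f = fun _ => s}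

open Classical in
/-- **The value reached by the simplex method cannot be approximated by monotone real circuits of
subexponential size.** Here `v x 0, …, v x (N x)` is the run of any version of the simplex method
from the vertex `v₀` of the assignment polytope for the objective function with the bits `x` as
coefficients. -/
theorem result (α c ν : ℝ) (hα : 0 ≤ α) (hc : 0 ≤ c) (hν : 0 < ν)
    (h : 2 * α + 3 * c + 6 * ν < 1) :
    ∃ n₀ : ℕ, ∀ n : ℕ, n₀ ≤ n → ∀ (v₀ : Fin n × Fin n → ℝ)
      (N : (Fin n × Fin n → Bool) → ℕ) (v : (Fin n × Fin n → Bool) → ℕ → Fin n × Fin n → ℝ),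
      (∀ x, IsRun (assign n) (fun _ => 1) (ind x) v₀ (N x) (v x)) →
      ∀ (R : Type) [Fintype R] [Nonempty R]
        (l : R → List ((Fin n × Fin n → Bool) → ℝ))
        (q : R → List (List (((Fin n × Fin n → Bool) → ℝ) × ℝ)))
        (f : R → (Fin n × Fin n → Bool) → ℝ),
        (∀ r, FProg (bitInputs n) (l r) (q r)) → (∀ r, f r ∈ l r) →
        (∀ r, (combos (q r) : ℝ) ≤ (n : ℝ) ^ α) →
        (∀ x, (n : ℝ) ≤ value (ind x) (v x (N x)) →
          3 * Fintype.card R ≤ 4 * (univ.filter fun r => 1 ≤ f r x).card) →
        (∀ x, value (ind x) (v x (N x)) < (n : ℝ) ^ (1 - c) →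
          3 * Fintype.card R ≤ 4 * (univ.filter fun r => f r x < 1).card) →
        ∃ r, (2 : ℝ) ^ ((n : ℝ) ^ ν) ≤ (l r).length + wires (q r) := by
  classical
  obtain ⟨c', hc', h'⟩ : ∃ c' : ℝ, c < c' ∧ 2 * α + 3 * c' + 6 * ν < 1 :=
    ⟨c + (1 - (2 * α + 3 * c + 6 * ν)) / 6, by linarith, by linarith⟩
  obtain ⟨N0, hN⟩ := asymp_matching α c' ν hα (hc.trans hc'.le) hν h'
  obtain ⟨N1, hN1⟩ := Filter.eventually_atTop.1 (((tendsto_rpow_atTop
    (show (0 : ℝ) < c' - c by linarith)).comp
    (tendsto_natCast_atTop_atTop (R := ℝ))).eventually_gt_atTop 2)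
  refine ⟨max N0 (max N1 1), fun n hn v₀ N v hv => ?_⟩
  have hnN : N0 ≤ n := (le_max_left _ _).trans hn
  have hnN1 : N1 ≤ n := ((le_max_left _ _).trans (le_max_right _ _)).trans hn
  have hn1 : 1 ≤ n := ((le_max_right _ _).trans (le_max_right _ _)).trans hn
  have hn0 : (0 : ℝ) < n := by exact_mod_cast hn1
  have hgap : 2 * (n : ℝ) ^ (1 - c') < (n : ℝ) ^ (1 - c) := by
    have h1 : (2 : ℝ) < (n : ℝ) ^ (c' - c) := hN1 n hnN1
    have h2 : (n : ℝ) ^ (1 - c) = (n : ℝ) ^ (c' - c) * (n : ℝ) ^ (1 - c') := by
      rw [← Real.rpow_add hn0]
      congr 1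
      ring
    rw [h2]
    have h3 : 0 < (n : ℝ) ^ (1 - c') := Real.rpow_pos_of_pos hn0 _
    nlinarith
  intro R _ _ l q f hp hf hcomb hyes hno
  let ψ : (Fin n → Fin n → Prop) → (Fin n × Fin n → Bool) := fun E e => decide (E e.1 e.2)
  have hψ : ∀ E : Fin n → Fin n → Prop, ∀ i j, ψ E (i, j) = true ↔ E i j := by
    intro E i j
    exact decide_eq_true_iff
  have hinp : ∀ g ∈ bitInputs n, (fun E => g (ψ E)) ∈ bipInputs n := by
    rintro g (⟨e, rfl⟩ | ⟨s, rfl⟩)
    · refine Or.inl ⟨e.1, e.2, ?_⟩
      funext E
      have h1 : ψ E e = true ↔ E e.1 e.2 := hψ E e.1 e.2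
      beta_reduce
      by_cases hE : E e.1 e.2
      · rw [if_pos hE, if_pos (h1.2 hE)]
      · rw [if_neg hE, if_neg (fun h => hE (h1.1 h))]
    · exact Or.inr ⟨s, rfl⟩
  have hsep : RSepMatching ((n : ℝ) ^ (1 - c'))
      (fun r => (l r).map fun g => fun E => g (ψ E)) := by
    refine ⟨fun r E => f r (ψ E), fun r => List.mem_map.2 ⟨f r, hf r, rfl⟩, fun E => ⟨?_, ?_⟩⟩
    · intro hE
      have h1 := hyes (ψ E) ((value_of_matching (hψ E) (hv _)).1 hE)
      convert h1
    · intro hE
      have h1 := hno (ψ E) (by
        have := (value_of_matching (hψ E) (hv _)).2 _ hE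
        linarith)
      convert h1
  obtain ⟨r, hr⟩ := hN n hnN R
    (fun r => (l r).map fun g => fun E => g (ψ E))
    (fun r => (q r).map fun w => w.map fun p => ((fun E => p.1 (ψ E)), p.2))
    (fun r => FProg.comap (inp' := bipInputs n) ψ hinp (hp r)) hsep
    (fun r => by rw [combos_map ψ (q r)]; exact hcomb r)
  refine ⟨r, ?_⟩
  rw [List.length_map, wires_map ψ (q r)] at hr
  exact hr

end Pool.Agent.Results.MP_4d246d_lc.GapValue
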