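import Pool.Agent.V11231.LPS.Stack
import Pool.Agent.V11231.SPX.Defs

/-!
# The simplex method on machines with a stack: head movement times memory

The linear programs considered here are `max c y`, `y ≥ 0`, with all row sums and column sums of the
`n × n` matrix `y` at most one: the constraint matrix is fixed, with entries `0` and `1`, and it is
totally unimodular; the coefficients of the objective function are `n ^ 2` bits, which are the
input. All vertices have entries `0` and `1`, and the start vertex may be the nondegenerate
vertex `0`.

Let any version of the simplex method be given: any rule which produces, for every objective
function of this kind, a path of improving edges which ends in a vertex with maximal objective value.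
The theorem concerns the single bit which tells whether this last vertex has the objective value
`n`, or the negation of this bit.

The model is a non-uniform nondeterministic machine with `k` two-way heads on the input, a memory
of `log s` bits (`s` nodes) and a stack (pushdown store) of unlimited height; the number of steps
is unlimited too. Deterministic log-space machines of this kind decide exactly the languages in P
(Cook 1971), so polynomial time versions of the simplex method can be implemented on them. Apart from
the memory the only resource that is bounded here is the way `T` of the heads on the input. The theorem
says that `(T + n ^ 2) log s ≥ n ^ 3 / D` for machines which compute the bit, even for random machines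
with one-sided error and acceptance probability `2 ^ (- n / D)`. So with the length `M = n ^ 2` of the
input head movement times memory is `Ω (M ^ (3 / 2))`, for all versions of the simplex method.

Proof. The objective value `n` is reached if and only if the bits contain a permutation matrix. The
lower bound for words over the symmetric group of degree five, put into matrices
(`Pool.Agent.W896.HB.mat_core`, number on the forehead method), is a starting result; the encoding of
such words (open braids) by bipartite graphs is that of my hand-in `StackTradeoff` on linear
feasibility (`Pool/Agent/V11231/LPS/Stack.lean`).
-/

set_option autoImplicit false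

namespace Pool.Agent.Results.MP_4d246d_lc.StackTradeoff

open Pool.Agent.W896.HP Pool.Agent.W896.HB Pool.Agent.V11231.SPX

/-- For every number `k` of heads there is a constant `D` such that the following holds for all `n`
and `T`. Let `v x 0, …, v x (N x)` be the run of any version of the simplex method from the vertex
`v₀` of the assignment polytope for the objective function with the bits `x` as coefficients, and let
`Q x` say that the objective value of its last vertex is at least `n`, or let `Q x` say that it is not.
Let `U r` be a finite family of nondeterministic programs with `k` heads and a stack, whose input is
the table of the bits `x`. If no `U r` accepts a table outside `Q`, and every table in `Q` is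
accepted by at least a `2 ^ (- ⌊n / D⌋)` fraction of the `U r` in a computation in which the total
way of the heads is at most `T`, then some `U r`, with `s` nodes, satisfies
`n ^ 3 ≤ D (T + n ^ 2) (⌊log₂ s⌋ + 1)`. -/
theorem result (k : ℕ) : ∃ D : ℕ, 0 < D ∧ ∀ (n T : ℕ) (v₀ : Fin n × Fin n → ℝ)
    (N : (Fin n × Fin n → Bool) → ℕ) (v : (Fin n × Fin n → Bool) → ℕ → Fin n × Fin n → ℝ),
    (∀ x, IsRun (assign n) (fun _ => 1) (ind x) v₀ (N x) (v x)) →
    ∀ Q : (Fin n × Fin n → Bool) → Prop,
    ((Q = fun x => (n : ℝ) ≤ value (ind x) (v x (N x))) ∨
      (Q = fun x => ¬ (n : ℝ) ≤ value (ind x) (v x (N x)))) →
    ∀ (R : Type) [Fintype R] [Nonempty R] (U : R → Prog (Fin k) (Fin n × Fin n)),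
      (∀ r x l, (U r).Acc x l → Q x) →
      (∀ x, Q x → Nat.card R ≤ 2 ^ (n / D) *
        Nat.card {r // ∃ l, (U r).Acc x l ∧ travel cellAt l ≤ T}) →
      ∃ r, n ^ 3 ≤ D * ((T + n ^ 2) * (Nat.log 2 (Fintype.card (U r).State) + 1)) := by
  obtain ⟨D, hD, H⟩ := Pool.Agent.V11231.LPS.lp_stack k
  refine ⟨D, hD, fun n T v₀ N v hv Q hQ R _ _ U h1 h2 => H n T Q ?_ R U h1 h2⟩
  rcases hQ with h | h
  · left
    rw [h]
    funext x
    exact propext (final_iff (hv x))
  · right
    rw [h]
    funext x
    exact propext (not_congr (final_iff (hv x)))

end Pool.Agent.Results.MP_4d246d_lc.StackTradeoff
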